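import Pool.Agent.Q163.AC.M

set_option autoImplicit false

/-!
# Every group of cardinality of the continuum is abstractly Borelian
-/

namespace Pool.Agent.Results.MP_c06a36_lc.EveryGroup

open Set Cardinal MeasureTheory

universe u

/-- The Borel field over the sets `A n`: the `σ`-algebra generated by them. -/
def BorelField {E : Type u} (A : ℕ → Set E) : Set (Set E) :=
  {B | MeasurableSet[MeasurableSpace.generateFrom (range A)] B}

/-- The sequence `A` is measurable: there is a countably additive probability measure on its Borel
field which vanishes on the singletons in the Borel field. -/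
def IsMeasurableSequence {E : Type u} (A : ℕ → Set E) : Prop :=
  ∃ m : @Measure E (MeasurableSpace.generateFrom (range A)),
    m univ = 1 ∧ ∀ x : E, {x} ∈ BorelField A → m {x} = 0

/-- `Z` is Borelian with respect to `A`: it belongs to the `σ`-algebra on `E × E × E` generated by
the products of three sets of the Borel field. -/
def IsBorelian {E : Type u} (A : ℕ → Set E) (Z : Set (E × E × E)) : Prop :=
  MeasurableSet[MeasurableSpace.generateFrom {W | ∃ B₁ ∈ BorelField A, ∃ B₂ ∈ BorelField A,
    ∃ B₃ ∈ BorelField A, W = B₁ ×ˢ B₂ ×ˢ B₃}] Z

/-- The representation of a group: the set of the triples `(x, y, z)` with `x y = z`. -/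
def representation (E : Type u) [Group E] : Set (E × E × E) := {p | p.1 * p.2.1 = p.2.2}

/-- The group is abstractly Borelian: its representation is Borelian with respect to some measurable
sequence of subsets. -/
def AbstractlyBorelian (E : Type u) [Group E] : Prop :=
  ∃ A : ℕ → Set E, IsMeasurableSequence A ∧ IsBorelian A (representation E)

theorem of_good {E : Type u} [Group E] (h : Q163.AB.Good E) : AbstractlyBorelian E := by
  obtain ⟨A, hm, hZ⟩ := h
  refine ⟨A, hm, ?_⟩
  have hle : Q163.AB.box A ≤ MeasurableSpace.generateFrom {W | ∃ B₁ ∈ BorelField A,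
      ∃ B₂ ∈ BorelField A, ∃ B₃ ∈ BorelField A, W = B₁ ×ˢ B₂ ×ˢ B₃} := by
    refine MeasurableSpace.generateFrom_mono ?_
    rintro W ⟨B₁, B₂, B₃, h1, h2, h3, rfl⟩
    exact ⟨B₁, h1, B₂, h2, B₃, h3, rfl⟩
  exact hle _ hZ

/-- Every group whose underlying set has the cardinality of the continuum is abstractly Borelian. -/
theorem result : ∀ (E : Type u) [Group E], #E = 𝔠 → AbstractlyBorelian E :=
  fun _ _ hE => of_good (Q163.AC.good_all hE)

end Pool.Agent.Results.MP_c06a36_lc.EveryGroup
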